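import Pool.Agent.Lib.MP_8024d7_al.Frame

namespace Pool.Agent.Lib.MP_8024d7_al

set_option linter.unusedSectionVars false

open Matrix Module LieAlgebra.SpecialLinear

variable {K : Type*} [Field K]

theorem exists_flag [IsAlgClosed K] [CharZero K] {L V : Type*} [LieRing L] [LieAlgebra K L]
    [LieAlgebra.IsSolvable L] [AddCommGroup V] [Module K V] [FiniteDimensional K V]
    [LieRingModule L V] [LieModule K L V] (j : ℕ) (hj : j ≤ finrank K V) :
    ∃ v : Fin j → V, LinearIndependent K v ∧
      ∀ (x : L) (i : Fin j), ⁅x, v i⁆ ∈ Submodule.span K (v '' Set.Iic i) := by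
  induction j with
  | zero => exact ⟨Fin.elim0, linearIndependent_empty_type, fun _ i => i.elim0⟩
  | succ j ih =>
    obtain ⟨v, hv, hx⟩ := ih (by omega)
    let N : LieSubmodule K L V :=
      { Submodule.span K (Set.range v) with
        lie_mem := by
          intro x m hm
          change ⁅x, m⁆ ∈ Submodule.span K (Set.range v)
          change m ∈ Submodule.span K (Set.range v) at hm
          induction hm using Submodule.span_induction with
          | mem m hm =>
            obtain ⟨i, rfl⟩ := hm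
            exact Submodule.span_mono (Set.image_subset_range _ _) (hx x i)
          | zero => simp
          | add a b _ _ ha hb => rw [lie_add]; exact add_mem ha hb
          | smul c a _ ha => rw [lie_smul]; exact Submodule.smul_mem _ c ha }
    have hN : N.toSubmodule = Submodule.span K (Set.range v) := rfl
    have hNtop : N.toSubmodule ≠ ⊤ := by
      intro h
      have h1 : finrank K (Submodule.span K (Set.range v)) = j := by
        rw [finrank_span_eq_card hv]; simp
      rw [← hN, h, finrank_top] at h1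
      omega
    have : Nontrivial (V ⧸ N) := Submodule.Quotient.nontrivial_iff.2 hNtop
    obtain ⟨χ, hχ⟩ := LieModule.exists_nontrivial_weightSpace_of_isSolvable K L (V ⧸ N)
    obtain ⟨⟨w, hw⟩, hw0⟩ := exists_ne (0 : LieModule.weightSpace (V ⧸ N) χ)
    have hw0' : w ≠ 0 := fun h => hw0 (Subtype.ext h)
    obtain ⟨u, rfl⟩ := LieSubmodule.Quotient.surjective_mk' N w
    rw [LieModule.mem_weightSpace] at hw
    have hu : u ∉ Submodule.span K (Set.range v) := by
      intro h
      exact hw0' ((LieSubmodule.Quotient.mk_eq_zero N).2 h)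
    refine ⟨Fin.snoc v u, linearIndependent_finSnoc.2 ⟨hv, hu⟩, ?_⟩
    intro x i
    refine Fin.lastCases ?_ (fun i => ?_) i
    · have h1 : ⁅x, u⁆ - χ x • u ∈ N := by
        rw [← LieSubmodule.Quotient.mk_eq_zero, map_sub, map_smul, LieModuleHom.map_lie, hw x,
          sub_self]
      have h2 : ⁅x, u⁆ = (⁅x, u⁆ - χ x • u) + χ x • u := by abel
      rw [Fin.snoc_last, h2]
      refine add_mem ?_ (Submodule.smul_mem _ _ (Submodule.subset_span ⟨Fin.last j, by simp, by simp⟩))
      refine Submodule.span_mono ?_ (show _ ∈ Submodule.span K (Set.range v) from h1)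
      rintro _ ⟨i, rfl⟩
      exact ⟨i.castSucc, Fin.le_last _, by simp⟩
    · rw [Fin.snoc_castSucc]
      refine Submodule.span_mono ?_ (hx x i)
      rintro _ ⟨i', hi', rfl⟩
      exact ⟨i'.castSucc, by simpa using hi', by simp⟩

theorem solvable_le_tri [IsAlgClosed K] [CharZero K] {n : ℕ} (c : LieSubalgebra K (sl (Fin n) K))
    (hc : LieAlgebra.IsSolvable c) :
    ∃ (g g' : Matrix (Fin n) (Fin n) K) (hg : g * g' = 1),
      c ≤ tri g g' hg (fun i => ((i : ℕ) : ℤ)) := by
  obtain ⟨v, hv, hx⟩ := exists_flag (K := K) (L := c) (V := Fin n → K) n (by simp)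
  let g : Matrix (Fin n) (Fin n) K := Matrix.of fun a i => v i a
  have hu : IsUnit g := Matrix.linearIndependent_cols_iff_isUnit.1 hv
  have hd : IsUnit g.det := (Matrix.isUnit_iff_isUnit_det g).1 hu
  refine ⟨g, g⁻¹, Matrix.mul_nonsing_inv g hd, ?_⟩
  intro x hxc
  rw [mem_tri]
  intro a b hab
  have h1 := hx ⟨x, hxc⟩ b
  have h2 : ∀ w ∈ Submodule.span K (v '' Set.Iic b), (g⁻¹ *ᵥ w) a = 0 := by
    intro w hw
    induction hw using Submodule.span_induction with
    | mem w hw =>
      obtain ⟨i, hi, rfl⟩ := hw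
      have : g⁻¹ *ᵥ v i = fun a => (g⁻¹ * g) a i := by
        ext a'; simp [Matrix.mulVec, Matrix.mul_apply, dotProduct, g]
      rw [this, Matrix.nonsing_inv_mul g hd]
      have hne : a ≠ i := by
        intro h
        subst h
        simp only [Set.mem_Iic] at hi
        have : (a : ℕ) ≤ b := hi
        simp only [Nat.cast_lt] at hab
        omega
      simp [hne]
    | zero => simp
    | add a b _ _ ha hb => rw [Matrix.mulVec_add, Pi.add_apply, ha, hb, add_zero]
    | smul c a _ ha => rw [Matrix.mulVec_smul, Pi.smul_apply, ha, smul_zero]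
  have h3 := h2 _ h1
  have h4 : (⁅(⟨x, hxc⟩ : c), v b⁆ : Fin n → K) = x.1 *ᵥ v b := rfl
  rw [h4, Matrix.mulVec_mulVec] at h3
  rw [toFrame_apply, Matrix.mul_apply]
  simpa [Matrix.mulVec, dotProduct, g] using h3

theorem tri_isBorel [IsAlgClosed K] [CharZero K] {n : ℕ} {ι : Type*} [Fintype ι] [DecidableEq ι]
    [Nonempty ι] (hι : Fintype.card ι = n)
    {g : Matrix (Fin n) ι K} {g' : Matrix ι (Fin n) K} (hg : g * g' = 1) (hg' : g' * g = 1)
    {ord : ι → ℤ} (ho : Function.Injective ord) : IsBorel (tri g g' hg ord) := by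
  refine ⟨tri_solvable hg ho, ?_⟩
  intro c hc hle
  obtain ⟨g₁, g₁', hg₁, hc₁⟩ := solvable_le_tri c hc
  have : Nonempty (Fin n) := by
    rw [← Fintype.card_pos_iff, Fintype.card_fin, ← hι]; exact Fintype.card_pos
  have h1 := finrank_tri hg hg' ord
  have h2 := finrank_tri hg₁ (mul_eq_one_comm.1 hg₁) (fun i : Fin n => ((i : ℕ) : ℤ))
  have h3 := card_le_pairs ord ho
  have h4 := card_le_pairs (fun i : Fin n => ((i : ℕ) : ℤ))
    (fun a b h => Fin.ext (by simpa using h))
  rw [hι] at h3
  rw [Fintype.card_fin] at h4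
  have h5 : (tri g g' hg ord).toSubmodule =
      (tri g₁ g₁' hg₁ (fun i => ((i : ℕ) : ℤ))).toSubmodule := by
    refine Submodule.eq_of_le_of_finrank_le (hle.trans hc₁) ?_
    change finrank K (tri g₁ g₁' hg₁ (fun i => ((i : ℕ) : ℤ))) ≤ finrank K (tri g g' hg ord)
    omega
  intro x hx
  have : x ∈ (tri g₁ g₁' hg₁ (fun i => ((i : ℕ) : ℤ))).toSubmodule := hc₁ hx
  rw [← h5] at this
  exact this

theorem borel_eq_tri [IsAlgClosed K] [CharZero K] {n : ℕ} (b : LieSubalgebra K (sl (Fin n) K))
    (hb : IsBorel b) :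
    ∃ (g g' : Matrix (Fin n) (Fin n) K) (hg : g * g' = 1),
      tri g g' hg (fun i => ((i : ℕ) : ℤ)) ≤ b := by
  obtain ⟨g, g', hg, hle⟩ := solvable_le_tri b hb.1
  exact ⟨g, g', hg, hb.2 (tri_solvable hg (fun a b h => Fin.ext (by simpa using h))) hle⟩

end Pool.Agent.Lib.MP_8024d7_al
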