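import Mathlib

namespace Pool.Agent.Lib.MP_8024d7_al

section General

variable {K : Type*} [Field K] {L : Type*} [LieRing L] [LieAlgebra K L]

/-- The stabiliser of a linear form `ξ`: all `x` with `ξ ⁅x, y⁆ = 0` for every `y`. -/
def stab (ξ : Module.Dual K L) : Submodule K L where
  carrier := {x | ∀ y : L, ξ ⁅x, y⁆ = 0}
  add_mem' := by
    intro a b ha hb y
    rw [add_lie, map_add, ha y, hb y, add_zero]
  zero_mem' := by
    intro y
    rw [zero_lie, map_zero]
  smul_mem' := by
    intro c a ha y
    rw [smul_lie, map_smul, ha y, smul_zero]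

/-- The index: the least dimension of a stabiliser of a linear form. -/
noncomputable def index (K : Type*) [Field K] (L : Type*) [LieRing L] [LieAlgebra K L] : ℕ :=
  sInf {d : ℕ | ∃ ξ : Module.Dual K L, Module.finrank K (stab ξ) = d}

/-- Frobenius: index zero. -/
def IsFrobenius (K : Type*) [Field K] (L : Type*) [LieRing L] [LieAlgebra K L] : Prop :=
  index K L = 0

/-- Borel subalgebra: maximal among solvable Lie subalgebras. -/
def IsBorel (b : LieSubalgebra K L) : Prop :=
  Maximal (fun c : LieSubalgebra K L => LieAlgebra.IsSolvable c) b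

/-- Parabolic subalgebra: one containing a Borel subalgebra. -/
def IsParabolic (p : LieSubalgebra K L) : Prop :=
  ∃ b : LieSubalgebra K L, IsBorel b ∧ b ≤ p

/-- Frobenius parabolic subalgebra of least dimension among all Frobenius parabolic
subalgebras. -/
def IsMinFrobeniusParabolic (p : LieSubalgebra K L) : Prop :=
  IsParabolic p ∧ IsFrobenius K p ∧
    ∀ q : LieSubalgebra K L, IsParabolic q → IsFrobenius K q →
      Module.finrank K p ≤ Module.finrank K q

end General

open Classical in
/-- The nilpotent Jordan matrix with blocks of the sizes listed in `lam`: entry `1` at `(i, i+1)`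
unless `i+1` is a partial sum of `lam`, all other entries `0`. -/
noncomputable def jordanMatrix (K : Type*) [Field K] (n : ℕ) (lam : List ℕ) :
    Matrix (Fin n) (Fin n) K :=
  Matrix.of fun i j =>
    if (j : ℕ) = (i : ℕ) + 1 ∧ ∀ t : ℕ, (lam.take t).sum ≠ (j : ℕ) then 1 else 0

/-- The partition `(3, 2^(k-2), 1)` for `n = 2k` and `(3, 2^(k-1))` for `n = 2k+1`. -/
def partitionOf (n : ℕ) : List ℕ :=
  if n % 2 = 0 then 3 :: (List.replicate (n / 2 - 2) 2 ++ [1])
  else 3 :: List.replicate (n / 2 - 1) 2

end Pool.Agent.Lib.MP_8024d7_al
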