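import Pool.Agent.Lib.MP_8024d7_al.Defs

namespace Pool.Agent.Lib.MP_8024d7_al

set_option linter.unusedSectionVars false

open Matrix Module LieAlgebra.SpecialLinear

variable {K : Type*} [Field K]

section LinAlg

theorem finrank_le_inf_ker_add {V W : Type*} [AddCommGroup V] [Module K V] [AddCommGroup W]
    [Module K W] [FiniteDimensional K V] [FiniteDimensional K W] (S : Submodule K V)
    (f : V →ₗ[K] W) :
    finrank K S ≤ finrank K (S ⊓ LinearMap.ker f : Submodule K V) + finrank K W := by
  have h1 := LinearMap.finrank_range_add_finrank_ker (f.domRestrict S)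
  have h2 : finrank K (LinearMap.range (f.domRestrict S)) ≤ finrank K W :=
    Submodule.finrank_le _
  have h3 : finrank K (LinearMap.ker (f.domRestrict S)) =
      finrank K (S ⊓ LinearMap.ker f : Submodule K V) := by
    rw [LinearMap.ker_domRestrict]
    have : (Submodule.comap S.subtype (LinearMap.ker f)) =
        Submodule.comap S.subtype (S ⊓ LinearMap.ker f) := by
      ext x; simp
    rw [this]
    exact (Submodule.comapSubtypeEquivOfLe inf_le_left).finrank_eq
  omega

theorem finrank_inf_ker_add_one {V : Type*} [AddCommGroup V] [Module K V]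
    [FiniteDimensional K V] (S : Submodule K V) (f : V →ₗ[K] K) (x : V) (hx : x ∈ S)
    (hf : f x ≠ 0) :
    finrank K (S ⊓ LinearMap.ker f : Submodule K V) + 1 = finrank K S := by
  have h1 := finrank_le_inf_ker_add S f
  rw [Module.finrank_self] at h1
  have h2 : (S ⊓ LinearMap.ker f : Submodule K V) < S := by
    refine lt_of_le_of_ne inf_le_left ?_
    intro h
    have : x ∈ (S ⊓ LinearMap.ker f : Submodule K V) := by rw [h]; exact hx
    exact hf this.2
  have h3 := Submodule.finrank_lt_finrank_of_lt h2
  omega

/-- matrices supported on a set of positions -/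
def supp (K : Type*) [Field K] {ι : Type*} (T : Finset (ι × ι)) : Submodule K (Matrix ι ι K) where
  carrier := {M | ∀ a b, (a, b) ∉ T → M a b = 0}
  add_mem' := by
    intro x y hx hy a b h
    simp [hx a b h, hy a b h]
  zero_mem' := by intro a b _; rfl
  smul_mem' := by
    intro c x hx a b h
    simp [hx a b h]

theorem finrank_supp {ι : Type*} [Fintype ι] [DecidableEq ι] (T : Finset (ι × ι)) :
    finrank K (supp K T) = T.card := by
  let e : supp K T ≃ₗ[K] (T → K) :=
    { toFun := fun M t => M.1 t.1.1 t.1.2
      map_add' := by intro x y; rfl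
      map_smul' := by intro c x; rfl
      invFun := fun v => ⟨Matrix.of fun a b => if h : (a, b) ∈ T then v ⟨(a, b), h⟩ else 0, by
        intro a b h
        simp [h]⟩
      left_inv := by
        intro M
        ext a b
        by_cases h : (a, b) ∈ T
        · simp [h]
        · simp [h, M.2 a b h]
      right_inv := by
        intro v
        ext t
        simp }
  rw [e.finrank_eq]
  simp

theorem card_le_pairs {ι : Type*} [Fintype ι] [DecidableEq ι] (ord : ι → ℤ)
    (h : Function.Injective ord) :
    2 * (Finset.univ.filter (fun t : ι × ι => ord t.1 ≤ ord t.2)).card =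
      Fintype.card ι * Fintype.card ι + Fintype.card ι := by
  set A := Finset.univ.filter (fun t : ι × ι => ord t.1 ≤ ord t.2) with hA
  set B := Finset.univ.filter (fun t : ι × ι => ord t.2 ≤ ord t.1) with hB
  have hAB : A.card = B.card := by
    refine Finset.card_bij (fun t _ => t.swap) ?_ ?_ ?_
    · intro t ht; simp [hA, hB] at ht ⊢; exact ht
    · intro t _ s _ hts; exact Prod.swap_injective hts
    · intro t ht; refine ⟨t.swap, ?_, by simp⟩; simp [hA, hB] at ht ⊢; exact ht
  have hU : A ∪ B = Finset.univ := by
    ext t; simp [hA, hB, le_total]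
  have hI : A ∩ B = Finset.univ.image (fun a : ι => (a, a)) := by
    ext ⟨a, b⟩
    simp only [hA, hB, Finset.mem_inter, Finset.mem_filter, Finset.mem_univ, true_and,
      Finset.mem_image, Prod.mk.injEq]
    constructor
    · rintro ⟨h1, h2⟩
      exact ⟨a, rfl, h (le_antisymm h1 h2)⟩
    · rintro ⟨c, rfl, rfl⟩
      exact ⟨le_rfl, le_rfl⟩
  have hIc : (A ∩ B).card = Fintype.card ι := by
    rw [hI, Finset.card_image_of_injective _ (fun a b hab => (Prod.mk.inj hab).1)]
    simp
  have := Finset.card_union_add_card_inter A B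
  rw [hU, hIc, Finset.card_univ, Fintype.card_prod] at this
  omega

end LinAlg

section Frame

variable {N ι : Type*} [Fintype N] [DecidableEq N] [Fintype ι] [DecidableEq ι]

/-- change of coordinates -/
def toFrame (g : Matrix N ι K) (g' : Matrix ι N K) : sl N K →ₗ[K] Matrix ι ι K where
  toFun x := g' * x.1 * g
  map_add' x y := by simp [Matrix.mul_add, Matrix.add_mul]
  map_smul' c x := by simp

theorem toFrame_apply (g : Matrix N ι K) (g' : Matrix ι N K) (x : sl N K) :
    toFrame g g' x = g' * x.1 * g := rfl

theorem mem_sl_iff (x : Matrix N N K) : x ∈ sl N K ↔ x.trace = 0 := Iff.rfl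

theorem toFrame_lie {g : Matrix N ι K} {g' : Matrix ι N K} (hg : g * g' = 1) (x y : sl N K) :
    toFrame g g' ⁅x, y⁆ = toFrame g g' x * toFrame g g' y - toFrame g g' y * toFrame g g' x := by
  simp only [toFrame_apply, sl_bracket, Matrix.mul_sub, Matrix.sub_mul]
  have h : ∀ a b : Matrix N N K, g' * a * g * (g' * b * g) = g' * (a * b) * g := by
    intro a b
    calc g' * a * g * (g' * b * g) = g' * a * (g * g') * b * g := by simp only [Matrix.mul_assoc]
      _ = g' * (a * b) * g := by rw [hg]; simp only [Matrix.mul_assoc, Matrix.mul_one]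
  rw [h, h]

theorem toFrame_injective {g : Matrix N ι K} {g' : Matrix ι N K} (hg : g * g' = 1) :
    Function.Injective (toFrame g g') := by
  intro x y h
  have h2 : g * (g' * x.1 * g) * g' = g * (g' * y.1 * g) * g' := by
    rw [← toFrame_apply, ← toFrame_apply, h]
  have h3 : ∀ a : Matrix N N K, g * (g' * a * g) * g' = a := by
    intro a
    calc g * (g' * a * g) * g' = (g * g') * a * (g * g') := by simp only [Matrix.mul_assoc]
      _ = a := by rw [hg]; simp
  rw [h3, h3] at h2
  exact Subtype.ext h2

theorem trace_toFrame {g : Matrix N ι K} {g' : Matrix ι N K} (hg : g * g' = 1) (x : sl N K) :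
    (toFrame g g' x).trace = 0 := by
  rw [toFrame_apply, Matrix.trace_mul_comm, ← Matrix.mul_assoc, hg, Matrix.one_mul]
  exact x.2

theorem exists_toFrame_eq {g : Matrix N ι K} {g' : Matrix ι N K} (hg' : g' * g = 1)
    (y : Matrix ι ι K) (hy : y.trace = 0) : ∃ x : sl N K, toFrame g g' x = y := by
  refine ⟨⟨g * y * g', ?_⟩, ?_⟩
  · rw [mem_sl_iff, Matrix.trace_mul_comm, ← Matrix.mul_assoc, hg', Matrix.one_mul, hy]
  · rw [toFrame_apply]
    calc g' * (g * y * g') * g = (g' * g) * y * (g' * g) := by simp only [Matrix.mul_assoc]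
      _ = y := by rw [hg']; simp

theorem finrank_comap_toFrame {g : Matrix N ι K} {g' : Matrix ι N K} (hg : g * g' = 1)
    (hg' : g' * g = 1) (S : Submodule K (Matrix ι ι K)) :
    finrank K (S.comap (toFrame g g')) =
      finrank K (S ⊓ LinearMap.ker (Matrix.traceLinearMap ι K K) : Submodule K _) := by
  have h1 : (S.comap (toFrame g g')).map (toFrame g g') =
      S ⊓ LinearMap.ker (Matrix.traceLinearMap ι K K) := by
    ext y
    simp only [Submodule.mem_map, Submodule.mem_comap, Submodule.mem_inf, LinearMap.mem_ker,
      traceLinearMap_apply]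
    constructor
    · rintro ⟨x, hx, rfl⟩
      exact ⟨hx, trace_toFrame hg x⟩
    · rintro ⟨h1, h2⟩
      obtain ⟨x, rfl⟩ := exists_toFrame_eq hg' y h2
      exact ⟨x, h1, rfl⟩
  rw [← h1]
  exact (Submodule.equivMapOfInjective _ (toFrame_injective hg) _).finrank_eq

theorem finrank_le_comap_toFrame {g : Matrix N ι K} {g' : Matrix ι N K} (hg : g * g' = 1)
    (hg' : g' * g = 1) (S : Submodule K (Matrix ι ι K)) :
    finrank K S ≤ finrank K (S.comap (toFrame g g')) + 1 := by
  rw [finrank_comap_toFrame hg hg']
  have := finrank_le_inf_ker_add S (Matrix.traceLinearMap ι K K)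
  rwa [Module.finrank_self] at this

/-- block upper triangular elements of `sl` in a given frame -/
def tri (g : Matrix N ι K) (g' : Matrix ι N K) (hg : g * g' = 1) (blk : ι → ℤ) :
    LieSubalgebra K (sl N K) :=
  { (supp K (Finset.univ.filter (fun t : ι × ι => blk t.1 ≤ blk t.2))).comap (toFrame g g') with
    lie_mem' := by
      intro x y hx hy
      have hx' : (toFrame g g' x).BlockTriangular blk := by
        intro a b h
        exact hx a b (by simpa using h)
      have hy' : (toFrame g g' y).BlockTriangular blk := by
        intro a b h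
        exact hy a b (by simpa using h)
      intro a b h
      rw [toFrame_lie hg]
      exact ((hx'.mul hy').sub (hy'.mul hx')) (by simpa using h) }

theorem mem_tri {g : Matrix N ι K} {g' : Matrix ι N K} {hg : g * g' = 1} {blk : ι → ℤ}
    {x : sl N K} : x ∈ tri g g' hg blk ↔ (toFrame g g' x).BlockTriangular blk := by
  constructor
  · intro hx a b h
    exact hx a b (by simpa using h)
  · intro hx a b h
    exact hx (by simpa using h)

theorem finrank_tri [Nonempty ι] {g : Matrix N ι K} {g' : Matrix ι N K} (hg : g * g' = 1)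
    (hg' : g' * g = 1) (blk : ι → ℤ) :
    finrank K (tri g g' hg blk) + 1 =
      (Finset.univ.filter (fun t : ι × ι => blk t.1 ≤ blk t.2)).card := by
  have h1 : finrank K (tri g g' hg blk) = finrank K
      ((supp K (Finset.univ.filter (fun t : ι × ι => blk t.1 ≤ blk t.2))).comap
        (toFrame g g')) := rfl
  rw [h1, finrank_comap_toFrame hg hg', ← finrank_supp (K := K)]
  obtain ⟨a⟩ := ‹Nonempty ι›
  refine finrank_inf_ker_add_one _ _ (Matrix.single a a 1) ?_ (by simp)
  intro b c h
  rw [Matrix.single_apply_of_ne]
  rintro ⟨rfl, rfl⟩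
  simp at h

theorem finrank_sl [Nonempty N] :
    finrank K (sl N K) + 1 = Fintype.card N * Fintype.card N := by
  have h := finrank_tri (K := K) (g := (1 : Matrix N N K)) (g' := 1) (by simp) (by simp)
    (fun _ => 0)
  have h2 : tri (1 : Matrix N N K) 1 (by simp) (fun _ => 0) = ⊤ := by
    ext x
    simp [mem_tri, Matrix.BlockTriangular]
  rw [h2] at h
  simp only [le_refl, Finset.filter_true, Finset.card_univ, Fintype.card_prod] at h
  rw [← h]
  congr 1
  exact (LieSubalgebra.topEquiv (R := K) (L := sl N K)).toLinearEquiv.finrank_eq.symm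

theorem mul_shift {ord : ι → ℤ} {A B : Matrix ι ι K} {i j : ℤ}
    (hA : ∀ a c, ord c < ord a + i → A a c = 0) (hB : ∀ a c, ord c < ord a + j → B a c = 0) :
    ∀ a c, ord c < ord a + (i + j) → (A * B) a c = 0 := by
  intro a c h
  rw [Matrix.mul_apply]
  refine Finset.sum_eq_zero fun b _ => ?_
  by_cases hb : ord b < ord a + i
  · rw [hA a b hb, zero_mul]
  · rw [hB b c (by omega), mul_zero]

theorem mul_diag {ord : ι → ℤ} (ho : Function.Injective ord) {A B : Matrix ι ι K}
    (hA : ∀ a c, ord c < ord a + 0 → A a c = 0) (hB : ∀ a c, ord c < ord a + 0 → B a c = 0)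
    (a : ι) : (A * B) a a = A a a * B a a := by
  rw [Matrix.mul_apply]
  refine Finset.sum_eq_single a ?_ (by simp)
  intro b _ hb
  have : ord b ≠ ord a := fun h => hb (ho h)
  rcases lt_or_gt_of_ne this with h | h
  · rw [hA a b (by omega), zero_mul]
  · rw [hB b a (by omega), mul_zero]

theorem tri_solvable {g : Matrix N ι K} {g' : Matrix ι N K} (hg : g * g' = 1) {ord : ι → ℤ}
    (ho : Function.Injective ord) : LieAlgebra.IsSolvable (tri g g' hg ord) := by
  have key : ∀ k : ℕ, ∀ x ∈ LieAlgebra.derivedSeries K (tri g g' hg ord) k,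
      ∀ a c, ord c < ord a + k → toFrame g g' x.1 a c = 0 := by
    intro k
    induction k with
    | zero =>
      intro x _ a c h
      exact (mem_tri.1 x.2) (by simpa using h)
    | succ k ih =>
      intro x hx
      rw [LieAlgebra.derivedSeries_def, LieAlgebra.derivedSeriesOfIdeal_succ,
        ← LieSubmodule.mem_toSubmodule, LieSubmodule.lieIdeal_oper_eq_linear_span'] at hx
      induction hx using Submodule.span_induction with
      | mem x hx =>
        obtain ⟨y, hy, z, hz, rfl⟩ := hx
        have hy' := ih y hy
        have hz' := ih z hz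
        intro a c h
        rw [LieSubalgebra.coe_bracket, toFrame_lie hg, Matrix.sub_apply]
        rcases Nat.eq_zero_or_pos k with rfl | hk
        · by_cases hac : c = a
          · subst hac
            rw [mul_diag ho hy' hz', mul_diag ho hz' hy', mul_comm, sub_self]
          · have : ord c ≠ ord a := fun h => hac (ho h)
            rw [mul_shift hy' hz' a c (by push_cast at h ⊢; omega),
              mul_shift hz' hy' a c (by push_cast at h ⊢; omega), sub_self]
        · rw [mul_shift hy' hz' a c (by push_cast at h ⊢; omega),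
            mul_shift hz' hy' a c (by push_cast at h ⊢; omega), sub_self]
      | zero => intro a c _; simp
      | add x y _ _ hx hy =>
        intro a c h
        have : toFrame g g' (x + y).1 = toFrame g g' x.1 + toFrame g g' y.1 := by
          rw [← map_add]; rfl
        rw [this, Matrix.add_apply, hx a c h, hy a c h, add_zero]
      | smul r x _ hx =>
        intro a c h
        have : toFrame g g' (r • x).1 = r • toFrame g g' x.1 := by
          rw [← map_smul]; rfl
        rw [this, Matrix.smul_apply, hx a c h, smul_zero]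
  obtain ⟨k, hk⟩ : ∃ k : ℕ, ∀ a c, ord c < ord a + k := by
    obtain ⟨B, hB⟩ := (Set.finite_range (fun t : ι × ι => (ord t.2 - ord t.1).toNat)).bddAbove
    refine ⟨B + 1, fun a c => ?_⟩
    have := hB ⟨(a, c), rfl⟩
    simp only at this
    omega
  refine LieAlgebra.IsSolvable.mk (R := K) (k := k) ?_
  rw [eq_bot_iff]
  intro x hx
  rw [LieSubmodule.mem_bot]
  have : toFrame g g' x.1 = 0 := by
    ext a c
    exact key k x hx a c (hk a c)
  have h2 : x.1 = 0 := toFrame_injective hg (by rw [this, map_zero])
  exact Subtype.ext h2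

end Frame

end Pool.Agent.Lib.MP_8024d7_al
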