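import Pool.Agent.Lib.MP_8024d7_al.Model

namespace Pool.Agent.Lib.MP_8024d7_al

set_option linter.unusedSectionVars false

open Matrix Module LieAlgebra.SpecialLinear

variable {K : Type*} [Field K]

theorem partial_sum_iff {n : ℕ} (hn : 3 ≤ n) (j : ℕ) (h0 : 0 < j) (hj : j < n) :
    (∀ t : ℕ, ((partitionOf n).take t).sum ≠ j) ↔ (j = 1 ∨ j % 2 = 0) := by
  have hsum : ∀ t : ℕ, ((partitionOf n).take (t + 1)).sum =
      if t ≤ (n - 3) / 2 then 3 + 2 * t else n := by
    intro t
    unfold partitionOf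
    split_ifs with h1 h2 h2
    · simp only [List.take_succ_cons, List.sum_cons, List.take_append, List.take_replicate,
        List.length_replicate, List.sum_append, List.sum_replicate, smul_eq_mul]
      have : t - (n / 2 - 2) = 0 := by omega
      rw [this]; simp; omega
    · simp only [List.take_succ_cons, List.sum_cons, List.take_append, List.take_replicate,
        List.length_replicate, List.sum_append, List.sum_replicate, smul_eq_mul]
      obtain ⟨u, hu⟩ : ∃ u, t - (n / 2 - 2) = u + 1 := ⟨t - (n / 2 - 2) - 1, by omega⟩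
      rw [hu]; simp; omega
    · simp only [List.take_succ_cons, List.sum_cons, List.take_replicate, List.sum_replicate,
        smul_eq_mul]
      omega
    · simp only [List.take_succ_cons, List.sum_cons, List.take_replicate, List.sum_replicate,
        smul_eq_mul]
      omega
  constructor
  · intro h
    by_contra hc
    have := h ((j - 3) / 2 + 1)
    rw [hsum] at this
    split_ifs at this <;> omega
  · intro h t
    rcases t with _ | t
    · simp; omega
    · rw [hsum]
      split_ifs <;> omega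

theorem jordan_apply {n : ℕ} (hn : 3 ≤ n) (i j : Fin n) :
    jordanMatrix K n (partitionOf n) i j =
      if (j : ℕ) = i + 1 ∧ ((j : ℕ) = 1 ∨ (j : ℕ) % 2 = 0) then 1 else 0 := by
  unfold jordanMatrix
  rw [Matrix.of_apply]
  by_cases h : (j : ℕ) = i + 1
  · have := partial_sum_iff hn j (by omega) j.2
    by_cases h2 : (j : ℕ) = 1 ∨ (j : ℕ) % 2 = 0
    · rw [if_pos ⟨h, this.2 h2⟩, if_pos ⟨h, h2⟩]
    · rw [if_neg (fun h' => h2 (this.1 h'.2)), if_neg (fun h' => h2 h'.2)]
  · rw [if_neg (fun h' => h h'.1), if_neg (fun h' => h h'.1)]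

def Uv (K : Type*) [Field K] (r m s : ℕ) : Fin r ⊕ Fin m → K :=
  Sum.elim (fun t => if (t : ℕ) + (m - r) = s then 1 else 0) 0

def Vv (K : Type*) [Field K] (r m s : ℕ) : Fin r ⊕ Fin m → K :=
  Sum.elim 0 (fun t => if (t : ℕ) = s then 1 else 0)

def Wv (K : Type*) [Field K] (r m : ℕ) : Fin r ⊕ Fin m → K := Sum.elim 0 (wv K m)

def Ue (K : Type*) [Field K] (r m : ℕ) : Fin r ⊕ Fin m → K := Sum.elim (wv K r) 0

def par (K : Type*) [Field K] (s : ℕ) : K := if s % 2 = 1 then 1 else 0

def Hc (K : Type*) [Field K] (r m j : ℕ) : Fin r ⊕ Fin m → K :=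
  if j = 0 then Wv K r m else if j = 1 then Vv K r m 1 else if j = 2 then Uv K r m 1
  else if j % 2 = 0 then Uv K r m (j / 2) - par K (j / 2) • Uv K r m 1
  else if (j + 1) / 2 < m then Vv K r m ((j + 1) / 2) - par K ((j + 1) / 2) • Vv K r m 1
  else Ue K r m - Vv K r m 1

theorem Em_mulVec (r m : ℕ) (a : Fin r → K) (b : Fin m → K) :
    Em K r m *ᵥ Sum.elim a b =
      Sum.elim (0 : Fin r → K) (Tm K r m *ᵥ a + (ph K m ⬝ᵥ b) • wv K m) := by
  rw [Em, Matrix.fromBlocks_mulVec]
  simp [Matrix.vecMulVec_mulVec]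

theorem Em_Uv {r m : ℕ} (hrm : r ≤ m) (s : ℕ) (h1 : m - r ≤ s) (h2 : s < m) :
    Em K r m *ᵥ Uv K r m s = Vv K r m s := by
  rw [Uv, Em_mulVec, Vv, dotProduct_zero, zero_smul, add_zero]
  congr 1
  ext a
  simp only [Matrix.mulVec, dotProduct, Tm, Matrix.of_apply]
  rw [Finset.sum_eq_single ⟨s - (m - r), by omega⟩ _ (by simp)]
  · have : s - (m - r) + (m - r) = s := by omega
    simp [this]
  · intro t _ ht
    have : (t : ℕ) + (m - r) ≠ s := fun h => ht (Fin.ext (by simp; omega))
    simp [this]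

theorem Em_Vv {r m : ℕ} (s : ℕ) (h2 : s < m) :
    Em K r m *ᵥ Vv K r m s = par K s • Wv K r m := by
  rw [Vv, Em_mulVec, Wv]
  have : ph K m ⬝ᵥ (fun t : Fin m => if (t : ℕ) = s then (1 : K) else 0) = par K s := by
    rw [dotProduct, Finset.sum_eq_single ⟨s, h2⟩ _ (by simp)]
    · simp [ph, par]
    · intro t _ ht
      have : (t : ℕ) ≠ s := fun h => ht (Fin.ext h)
      simp [this]
  rw [this]
  ext (a | a) <;> simp

theorem Em_Wv (r m : ℕ) : Em K r m *ᵥ Wv K r m = 0 := by
  rw [Wv, Em_mulVec, ph_dot_wv]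
  ext (a | a) <;> simp

theorem Em_Ue (m : ℕ) : Em K m m *ᵥ Ue K m m = Wv K m m := by
  rw [Ue, Em_mulVec, Wv, dotProduct_zero, zero_smul, add_zero]
  congr 1
  ext a
  simp only [Matrix.mulVec, dotProduct, Tm, Matrix.of_apply]
  rw [Finset.sum_eq_single a _ (by simp)]
  · simp
  · intro t _ ht
    have : (a : ℕ) ≠ t := fun h => ht (Fin.ext h.symm)
    simp [this]

theorem Em_Hc {r m : ℕ} (hm : 2 ≤ m) (hrm : m = r ∨ m = r + 1) (j : ℕ) (hj : j < r + m) :
    Em K r m *ᵥ Hc K r m j =
      if 0 < j ∧ (j = 1 ∨ j % 2 = 0) then Hc K r m (j - 1) else 0 := by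
  have hp1 : par K 1 = 1 := by simp [par]
  by_cases h0 : j = 0
  · subst h0; simp [Hc, Em_Wv]
  by_cases h1 : j = 1
  · subst h1
    simp [Hc, Em_Vv 1 (show 1 < m by omega), hp1]
  by_cases h2 : j = 2
  · subst h2
    simp [Hc, Em_Uv (show r ≤ m by omega) 1 (by omega) (by omega)]
  by_cases h3 : j % 2 = 0
  · rw [if_pos ⟨by omega, Or.inr h3⟩]
    have e1 : (j - 1 + 1) / 2 = j / 2 := by omega
    rw [Hc, if_neg h0, if_neg h1, if_neg h2, if_pos h3, Hc, if_neg (by omega), if_neg (by omega),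
      if_neg (by omega), if_neg (by omega), if_pos (by omega), e1, Matrix.mulVec_sub,
      Matrix.mulVec_smul, Em_Uv (by omega) _ (by omega) (by omega),
      Em_Uv (by omega) _ (by omega) (by omega)]
  · rw [if_neg (by omega), Hc, if_neg h0, if_neg h1, if_neg h2, if_neg h3]
    split_ifs with h4
    · rw [Matrix.mulVec_sub, Matrix.mulVec_smul, Em_Vv _ h4, Em_Vv 1 (by omega), hp1, one_smul,
        sub_self]
    · have : r = m := by omega
      subst this
      rw [Matrix.mulVec_sub, Em_Ue, Em_Vv 1 (by omega), hp1, one_smul, sub_self]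

theorem dot_Uv {r m : ℕ} (ψ : Fin r ⊕ Fin m → K) (t : Fin r) (s : ℕ) (h : (t : ℕ) + (m - r) = s) :
    ψ ⬝ᵥ Uv K r m s = ψ (Sum.inl t) := by
  rw [dotProduct, Finset.sum_eq_single (Sum.inl t) _ (by simp)]
  · simp [Uv, h]
  · rintro (a | a) _ ha
    · have : (a : ℕ) + (m - r) ≠ s := fun h' => ha (congrArg _ (Fin.ext (by omega)))
      simp [Uv, this]
    · simp [Uv]

theorem dot_Vv {r m : ℕ} (ψ : Fin r ⊕ Fin m → K) (t : Fin m) (s : ℕ) (h : (t : ℕ) = s) :
    ψ ⬝ᵥ Vv K r m s = ψ (Sum.inr t) := by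
  rw [dotProduct, Finset.sum_eq_single (Sum.inr t) _ (by simp)]
  · simp [Vv, h]
  · rintro (a | a) _ ha
    · simp [Vv]
    · have : (a : ℕ) ≠ s := fun h' => ha (congrArg _ (Fin.ext (by omega)))
      simp [Vv, this]

theorem Hc_span {r m : ℕ} (hm : 2 ≤ m) (hrm : m = r ∨ m = r + 1) (ψ : Fin r ⊕ Fin m → K)
    (h : ∀ j < r + m, ψ ⬝ᵥ Hc K r m j = 0) : ψ = 0 := by
  have hV1 : ψ ⬝ᵥ Vv K r m 1 = 0 := by simpa [Hc] using h 1 (by omega)
  have hU1 : ψ ⬝ᵥ Uv K r m 1 = 0 := by simpa [Hc] using h 2 (by omega)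
  have hV : ∀ t : Fin m, (t : ℕ) ≠ 0 → ψ (Sum.inr t) = 0 := by
    intro t ht
    by_cases h1 : (t : ℕ) = 1
    · rw [← dot_Vv ψ t 1 h1, hV1]
    · have := h (2 * t - 1) (by omega)
      have e1 : (2 * (t : ℕ) - 1 + 1) / 2 = t := by omega
      rw [Hc, if_neg (by omega), if_neg (by omega), if_neg (by omega), if_neg (by omega),
        if_pos (by omega), e1, dotProduct_sub, dotProduct_smul, hV1, smul_zero, sub_zero,
        dot_Vv ψ t t rfl] at this
      exact this
  have hU : ∀ t : Fin r, (t : ℕ) + (m - r) ≠ 0 → ψ (Sum.inl t) = 0 := by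
    intro t ht
    by_cases h1 : (t : ℕ) + (m - r) = 1
    · rw [← dot_Uv ψ t 1 h1, hU1]
    · have := h (2 * (t + (m - r))) (by omega)
      have e1 : (2 * ((t : ℕ) + (m - r))) / 2 = t + (m - r) := by omega
      rw [Hc, if_neg (by omega), if_neg (by omega), if_neg (by omega), if_pos (by omega),
        e1, dotProduct_sub, dotProduct_smul, hU1, smul_zero, sub_zero,
        dot_Uv ψ t _ rfl] at this
      exact this
  ext (t | t)
  · by_cases ht : (t : ℕ) + (m - r) = 0
    · have := h (2 * m - 1) (by omega)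
      rw [Hc, if_neg (by omega), if_neg (by omega), if_neg (by omega), if_neg (by omega),
        if_neg (by omega), dotProduct_sub, hV1, sub_zero, dotProduct,
        Finset.sum_eq_single (Sum.inl t) _ (by simp)] at this
      · have ht0 : (t : ℕ) = 0 := by omega
        simpa [Ue, wv, ht0] using this
      · rintro (a | a) _ ha
        · have : (a : ℕ) ≠ t := fun h' => ha (congrArg _ (Fin.ext h'))
          rw [hU a (by omega), zero_mul]
        · simp [Ue]
    · exact hU t ht
  · by_cases ht : (t : ℕ) = 0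
    · have := h 0 (by omega)
      rw [Hc, if_pos rfl, dotProduct, Finset.sum_eq_single (Sum.inr t) _ (by simp)] at this
      · simpa [Wv, wv, ht] using this
      · rintro (a | a) _ ha
        · simp [Wv]
        · have : (a : ℕ) ≠ t := fun h' => ha (congrArg _ (Fin.ext h'))
          rw [hV a (by omega), zero_mul]
    · exact hV t ht

theorem exists_frame {n r m : ℕ} (hm : 2 ≤ m) (hrm : m = r ∨ m = r + 1) (hn : n = r + m) :
    ∃ (g : Matrix (Fin n) (Fin r ⊕ Fin m) K) (g' : Matrix (Fin r ⊕ Fin m) (Fin n) K),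
      g * g' = 1 ∧ g' * g = 1 ∧ g' * jordanMatrix K n (partitionOf n) * g = Em K r m := by
  let h : Matrix (Fin r ⊕ Fin m) (Fin n) K := Matrix.of fun p j => Hc K r m j p
  have hE : Em K r m * h = h * jordanMatrix K n (partitionOf n) := by
    ext p j
    have h1 : (Em K r m * h) p j = (Em K r m *ᵥ Hc K r m j) p := rfl
    rw [h1, Em_Hc hm hrm j (by omega), Matrix.mul_apply]
    simp only [jordan_apply (show 3 ≤ n by omega)]
    split_ifs with h2
    · rw [Finset.sum_eq_single ⟨j - 1, by omega⟩ _ (by simp)]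
      · rw [if_pos ⟨by simp; omega, h2.2⟩]; simp [h]
      · intro i _ hi
        have : (i : ℕ) ≠ j - 1 := fun h' => hi (Fin.ext h')
        rw [if_neg (by omega), mul_zero]
    · symm
      refine Finset.sum_eq_zero fun i _ => ?_
      rw [if_neg (by omega), mul_zero]
  have hcard : Fintype.card (Fin r ⊕ Fin m) = Fintype.card (Fin n) := by simp [hn]
  let e : Fin r ⊕ Fin m ≃ Fin n := Fintype.equivOfCardEq hcard
  have hu : IsUnit (h.submatrix e.symm id) := by
    rw [← Matrix.vecMul_injective_iff_isUnit]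
    refine (injective_iff_map_eq_zero (Matrix.vecMulLinear (h.submatrix e.symm id))).2 ?_
    intro ψ hψ
    have : ψ ∘ e = 0 := by
      refine Hc_span hm hrm _ fun j hj => ?_
      have h2 := congr_fun hψ ⟨j, by omega⟩
      simp only [Matrix.vecMulLinear_apply, Matrix.vecMul, dotProduct, Matrix.submatrix_apply,
        id, Pi.zero_apply] at h2
      rw [← h2, dotProduct]
      refine Fintype.sum_equiv e _ _ fun p => ?_
      simp [h]
    ext a
    simpa using congr_fun this (e.symm a)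
  obtain ⟨u, hu⟩ := hu.exists_left_inv
  have h1 : u.submatrix id e * h = 1 := by
    rw [← hu]
    ext a b
    simp only [Matrix.mul_apply, Matrix.submatrix_apply, id]
    refine Fintype.sum_equiv e _ _ fun p => ?_
    simp
  have h2 : h * u.submatrix id e = 1 := (Matrix.mul_eq_one_comm_of_equiv e).2 h1
  refine ⟨u.submatrix id e, h, h1, h2, ?_⟩
  rw [← hE, Matrix.mul_assoc, h2, Matrix.mul_one]

end Pool.Agent.Lib.MP_8024d7_al
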