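import Pool.Agent.Lib.MP_8024d7_al.Jordan

namespace Pool.Agent.Lib.MP_8024d7_al

set_option linter.unusedSectionVars false

open Matrix Module LieAlgebra.SpecialLinear

variable {K : Type*} [Field K]

theorem trace_jordan (n : ℕ) (lam : List ℕ) : (jordanMatrix K n lam).trace = 0 := by
  refine Finset.sum_eq_zero fun i _ => ?_
  simp [jordanMatrix]

theorem eq_zero_of_trace_mul [CharZero K] {n : ℕ} (hn : 0 < n) (z : Matrix (Fin n) (Fin n) K)
    (hz : z.trace = 0) (h : ∀ y : sl (Fin n) K, (z * y.1).trace = 0) : z = 0 := by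
  have h2 : ∀ y : Matrix (Fin n) (Fin n) K, (z * y).trace = 0 := by
    intro y
    have hn' : (n : K) ≠ 0 := by exact_mod_cast hn.ne'
    have := h ⟨y - (y.trace / n) • 1, by
      rw [mem_sl_iff, Matrix.trace_sub, Matrix.trace_smul, Matrix.trace_one, Fintype.card_fin,
        smul_eq_mul, div_mul_cancel₀ _ hn', sub_self]⟩
    simpa [Matrix.mul_sub, hz] using this
  ext a b
  have := h2 (Matrix.single b a 1)
  simpa [Matrix.trace_mul_single] using this

theorem frobenius_of_isCompl [CharZero K] {n : ℕ} (hn : 0 < n) (e : sl (Fin n) K)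
    (p : LieSubalgebra K (sl (Fin n) K))
    (h : IsCompl (LinearMap.ker (LieAlgebra.ad K (sl (Fin n) K) e)) p.toSubmodule) :
    IsFrobenius K p := by
  let ξ₀ : Module.Dual K (sl (Fin n) K) :=
    { toFun := fun x => (e.1 * x.1).trace
      map_add' := by intro x y; simp [Matrix.mul_add]
      map_smul' := by intro c x; simp }
  have hξ₀ : ∀ x y : sl (Fin n) K, ξ₀ ⁅x, y⁆ = ((e.1 * x.1 - x.1 * e.1) * y.1).trace := by
    intro x y
    simp only [ξ₀, LinearMap.coe_mk, AddHom.coe_mk, sl_bracket, Matrix.mul_sub, Matrix.sub_mul,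
      Matrix.trace_sub, Matrix.mul_assoc]
    rw [← Matrix.mul_assoc e.1 y.1, Matrix.trace_mul_comm (e.1 * y.1)]
  refine isFrobenius_of_stab_eq_bot (ξ₀ ∘ₗ p.toSubmodule.subtype) ?_
  rw [eq_bot_iff]
  intro x hx
  have h1 : ∀ y : sl (Fin n) K, ξ₀ ⁅x.1, y⁆ = 0 := by
    intro y
    have hy : y ∈ LinearMap.ker (LieAlgebra.ad K (sl (Fin n) K) e) ⊔ p.toSubmodule := by
      rw [h.sup_eq_top]; trivial
    obtain ⟨a, ha, b, hb, rfl⟩ := Submodule.mem_sup.1 hy
    have h2 : ξ₀ ⁅x.1, b⁆ = 0 := hx ⟨b, hb⟩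
    have h3 : ξ₀ ⁅x.1, a⁆ = 0 := by
      have ha' : ⁅e, a⁆ = 0 := ha
      have ha'' : e.1 * a.1 - a.1 * e.1 = 0 := by rw [← sl_bracket, ha']; rfl
      rw [← lie_skew, map_neg, hξ₀, ha'']; simp
    rw [lie_add, map_add, h2, h3, add_zero]
  have h4 : e.1 * x.1.1 - x.1.1 * e.1 = 0 := by
    refine eq_zero_of_trace_mul hn _ ?_ fun y => ?_
    · rw [Matrix.trace_sub, Matrix.trace_mul_comm, sub_self]
    · rw [← hξ₀, h1]
  have h5 : x.1 ∈ LinearMap.ker (LieAlgebra.ad K (sl (Fin n) K) e) ⊓ p.toSubmodule := by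
    refine ⟨?_, x.2⟩
    change ⁅e, x.1⁆ = 0
    exact Subtype.ext h4
  rw [h.inf_eq_bot, Submodule.mem_bot] at h5
  exact (Submodule.mem_bot K).2 (Subtype.ext h5)

theorem main [IsAlgClosed K] [CharZero K] (n : ℕ) (hn : 3 ≤ n) :
    ∃ e : sl (Fin n) K, e.1 = jordanMatrix K n (partitionOf n) ∧
      ∃ p : LieSubalgebra K (sl (Fin n) K),
        IsMinFrobeniusParabolic p ∧
        IsCompl (LinearMap.ker (LieAlgebra.ad K (sl (Fin n) K) e)) p.toSubmodule := by
  obtain ⟨r, m, hm, hrm, hnrm⟩ : ∃ r m : ℕ, 2 ≤ m ∧ (m = r ∨ m = r + 1) ∧ n = r + m :=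
    ⟨n / 2, n - n / 2, by omega, by omega, by omega⟩
  obtain ⟨g, g', hg, hg', hE⟩ := exists_frame (K := K) hm hrm hnrm
  let e : sl (Fin n) K := ⟨jordanMatrix K n (partitionOf n), trace_jordan _ _⟩
  have he : toFrame g g' e = Em K r m := hE
  have : Nonempty (Fin r ⊕ Fin m) := ⟨Sum.inr ⟨0, by omega⟩⟩
  have : Nonempty (Fin n) := ⟨⟨0, by omega⟩⟩
  have hker : LinearMap.ker (LieAlgebra.ad K (sl (Fin n) K) e) =
      (comm (Em K r m)).comap (toFrame g g') := by
    ext x
    rw [LinearMap.mem_ker, LieAlgebra.ad_apply, Submodule.mem_comap,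
      ← (toFrame_injective hg).eq_iff, toFrame_lie hg, he, map_zero, sub_eq_zero]
    exact eq_comm
  let p := tri g g' hg (blk r m)
  have hdis : Disjoint (LinearMap.ker (LieAlgebra.ad K (sl (Fin n) K) e)) p.toSubmodule := by
    rw [Submodule.disjoint_def]
    intro x hx hp
    rw [hker] at hx
    obtain ⟨c, hc⟩ := scalar_of_commute hm hrm _ (mem_tri.1 hp) hx
    have ht := trace_toFrame hg x
    rw [hc, Matrix.trace_smul, Matrix.trace_one, smul_eq_mul, mul_eq_zero] at ht
    have hc0 : c = 0 := by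
      rcases ht with ht | ht
      · exact ht
      · exact absurd (Nat.cast_eq_zero.1 ht) Fintype.card_ne_zero
    apply toFrame_injective hg
    rw [hc, hc0, zero_smul, map_zero]
  have d1 := finrank_tri hg hg' (blk r m)
  have d2 := card_blk hm hrm
  have d3 := finrank_comm (K := K) (r := r) hm
  have d4 := finrank_le_comap_toFrame hg hg' (comm (Em K r m))
  rw [← hker] at d4
  have d5 := finrank_sl (K := K) (N := Fin n)
  rw [Fintype.card_fin] at d5
  have d6 := Submodule.finrank_add_finrank_le_of_disjoint hdis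
  have d7 : finrank K p.toSubmodule = finrank K (tri g g' hg (blk r m)) := rfl
  have d8 : (r + m) * (r + m) + (r + m) = 4 * (r * m) + 2 * m := by
    rcases hrm with h | h <;> subst h <;> ring
  have d9 : n * n = (r + m) * (r + m) := by rw [hnrm]
  have hcompl : IsCompl (LinearMap.ker (LieAlgebra.ad K (sl (Fin n) K) e)) p.toSubmodule := by
    refine ⟨hdis, ?_⟩
    rw [codisjoint_iff]
    apply Submodule.eq_top_of_disjoint _ _ _ hdis
    omega
  refine ⟨e, rfl, p, ⟨⟨tri g g' hg (ord r m), ?_, ?_⟩, ?_, ?_⟩, hcompl⟩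
  · exact tri_isBorel (by simp [hnrm]) hg hg' (ord_injective r m)
  · intro x hx
    rw [mem_tri] at hx ⊢
    intro a b hab
    refine hx ?_
    by_contra hcon
    exact absurd (blk_mono r m a b (not_lt.1 hcon)) (not_le.2 hab)
  · exact frobenius_of_isCompl (by omega) e p hcompl
  · rintro q ⟨b, hb, hbq⟩ hq
    obtain ⟨g₁, g₁', hg₁, hle⟩ := borel_eq_tri b hb
    obtain ⟨ξ, hξ⟩ := stab_eq_bot_of_isFrobenius hq
    have := lower_bound r (by omega) q hg₁ (hle.trans hbq) ξ hξ
    have hnr : n - r = m := by omega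
    rw [hnr] at this
    change finrank K (tri g g' hg (blk r m)) ≤ _
    omega

end Pool.Agent.Lib.MP_8024d7_al
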