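import Pool.Agent.Lib.MP_8024d7_al.Borel

namespace Pool.Agent.Lib.MP_8024d7_al

set_option linter.unusedSectionVars false

open Matrix Module LieAlgebra.SpecialLinear

variable {K : Type*} [Field K]

theorem two_mul_finrank_le_of_isotropic {L : Type*} [LieRing L] [LieAlgebra K L]
    [FiniteDimensional K L] (ξ : Module.Dual K L) (hξ : stab ξ = ⊥) (Z : Submodule K L)
    (hZ : ∀ x ∈ Z, ∀ y ∈ Z, ξ ⁅x, y⁆ = 0) : 2 * finrank K Z ≤ finrank K L := by
  let B : L →ₗ[K] Module.Dual K L := (LinearMap.mk₂ K (fun x y : L => ξ ⁅x, y⁆)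
    (by intros; simp) (by intros; simp) (by intros; simp) (by intros; simp))
  have hB : Function.Injective B := by
    rw [← LinearMap.ker_eq_bot, eq_bot_iff]
    intro x hx
    rw [← hξ]
    intro y
    exact LinearMap.congr_fun (LinearMap.mem_ker.1 hx) y
  have h1 : Z.map B ≤ Z.dualAnnihilator := by
    rintro _ ⟨x, hx, rfl⟩
    rw [Submodule.mem_dualAnnihilator]
    intro y hy
    exact hZ x hx y hy
  have h2 := Submodule.finrank_mono h1
  rw [← (Submodule.equivMapOfInjective B hB Z).finrank_eq] at h2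
  have h3 := Subspace.finrank_add_finrank_dualAnnihilator_eq Z
  omega

theorem stab_eq_bot_of_isFrobenius {L : Type*} [LieRing L] [LieAlgebra K L]
    [FiniteDimensional K L] (h : IsFrobenius K L) : ∃ ξ : Module.Dual K L, stab ξ = ⊥ := by
  have hne : ({d : ℕ | ∃ ξ : Module.Dual K L, Module.finrank K (stab ξ) = d}).Nonempty :=
    ⟨_, 0, rfl⟩
  have := Nat.sInf_mem hne
  unfold IsFrobenius index at h
  rw [h] at this
  obtain ⟨ξ, hξ⟩ := this
  exact ⟨ξ, Submodule.finrank_eq_zero.1 hξ⟩

theorem isFrobenius_of_stab_eq_bot {L : Type*} [LieRing L] [LieAlgebra K L]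
    (ξ : Module.Dual K L) (h : stab ξ = ⊥) : IsFrobenius K L := by
  unfold IsFrobenius index
  rw [Nat.sInf_eq_zero]
  left
  exact ⟨ξ, by rw [h]; simp⟩

theorem bruhat {n : ℕ} (r : ℕ) (hr : r < n) (M : Matrix (Fin n) (Fin n) K) :
    ∃ (U U' : Matrix (Fin n) (Fin n) K) (σ : Fin n → Fin n), U * U' = 1 ∧ U' * U = 1 ∧
      U.BlockTriangular id ∧ U'.BlockTriangular id ∧ (∀ i, r ≤ (σ i : ℕ)) ∧
      ∀ i j : Fin n, (i : ℕ) < r → r ≤ (j : ℕ) → j ≠ σ i → (U' * M * U) j i = 0 := by
  classical
  let P : Fin n → ℕ → (Fin n → K) → Prop := fun i h u =>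
    u i = 1 ∧ (∀ j, i < j → u j = 0) ∧ ∀ j : Fin n, r ≤ (j : ℕ) → h ≤ (j : ℕ) → (M *ᵥ u) j = 0
  have hP : ∀ i, ∃ h, ∃ u, P i h u := by
    intro i
    refine ⟨n, Pi.single i 1, by simp, ?_, ?_⟩
    · intro j hj; simp [hj.ne']
    · intro j _ hj; exact absurd j.2 (by omega)
  let ht : Fin n → ℕ := fun i => Nat.find (hP i)
  have hspec : ∀ i, ∃ u, P i (ht i) u := fun i => Nat.find_spec (hP i)
  choose u hu using hspec
  have hmin : ∀ i h w, P i h w → ht i ≤ h := fun i h w hw => Nat.find_min' (hP i) ⟨w, hw⟩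
  have htle : ∀ i, ht i ≤ n := by
    intro i
    refine hmin i n (Pi.single i 1) ⟨by simp, ?_, ?_⟩
    · intro j hj; simp [hj.ne']
    · intro j _ hj; exact absurd j.2 (by omega)
  have hpiv : ∀ i (j : Fin n), r ≤ (j : ℕ) → ht i = (j : ℕ) + 1 → (M *ᵥ u i) j ≠ 0 := by
    intro i j hj hij h0
    have : ht i ≤ (j : ℕ) := by
      refine hmin i j (u i) ⟨(hu i).1, (hu i).2.1, ?_⟩
      intro j' hj' hjj'
      rcases eq_or_lt_of_le hjj' with h | h
      · rw [← Fin.ext h]; exact h0
      · exact (hu i).2.2 j' hj' (by omega)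
    omega
  have hdist : ∀ i i' (j : Fin n), i < i' → r ≤ (j : ℕ) → ht i = (j : ℕ) + 1 →
      ht i' = (j : ℕ) + 1 → False := by
    intro i i' j hii' hj hi hi'
    have hp := hpiv i j hj hi
    have : ht i' ≤ (j : ℕ) := by
      refine hmin i' j (u i' - ((M *ᵥ u i') j / (M *ᵥ u i) j) • u i) ⟨?_, ?_, ?_⟩
      · simp [(hu i').1, (hu i).2.1 i' hii']
      · intro k hk
        simp [(hu i').2.1 k hk, (hu i).2.1 k (hii'.trans hk)]
      · intro j' hj' hjj'
        rw [Matrix.mulVec_sub, Matrix.mulVec_smul, Pi.sub_apply, Pi.smul_apply, smul_eq_mul]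
        rcases eq_or_lt_of_le hjj' with h | h
        · rw [← Fin.ext h]; field_simp; ring
        · rw [(hu i).2.2 j' hj' (by omega), (hu i').2.2 j' hj' (by omega)]; simp
    omega
  have huniq : ∀ i i' (j : Fin n), r ≤ (j : ℕ) → ht i = (j : ℕ) + 1 →
      ht i' = (j : ℕ) + 1 → i = i' := by
    intro i i' j hj hi hi'
    rcases lt_trichotomy i i' with h | h | h
    · exact (hdist i i' j h hj hi hi').elim
    · exact h
    · exact (hdist i' i j h hj hi' hi).elim
  let Q : (Fin n → K) → (Fin n → K) := fun w a => if r ≤ (a : ℕ) then w a else 0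
  let col : Fin n → (Fin n → K) := fun j =>
    if (j : ℕ) < r then u j
    else if h : ∃ i, ht i = (j : ℕ) + 1 then
      ((M *ᵥ u h.choose) j)⁻¹ • Q (M *ᵥ u h.choose) else Pi.single j 1
  have hcol1 : ∀ j, col j j = 1 := by
    intro j
    simp only [col]
    split_ifs with h1 h2
    · exact (hu j).1
    · have := hpiv h2.choose j (by omega) h2.choose_spec
      simp only [Pi.smul_apply, Q, smul_eq_mul]
      rw [if_pos (by omega), inv_mul_cancel₀ this]
    · simp
  have hcol2 : ∀ j a, j < a → col j a = 0 := by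
    intro j a hja
    have hja' : (j : ℕ) < a := hja
    simp only [col]
    split_ifs with h1 h2
    · exact (hu j).2.1 a hja
    · simp only [Pi.smul_apply, Q, smul_eq_mul]
      rw [if_pos (by omega), (hu h2.choose).2.2 a (by omega) (by rw [h2.choose_spec]; omega),
        mul_zero]
    · simp [hja.ne']
  let U : Matrix (Fin n) (Fin n) K := Matrix.of fun a j => col j a
  have hU : U.BlockTriangular id := fun a j h => hcol2 j a h
  have hdet : U.det = 1 := by
    rw [Matrix.det_of_isUpperTriangular hU]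
    simp [U, hcol1]
  have hd : IsUnit U.det := by rw [hdet]; exact isUnit_one
  let _ : Invertible U := Matrix.invertibleOfIsUnitDet U hd
  have hU' : U⁻¹.BlockTriangular id := Matrix.blockTriangular_inv_of_blockTriangular hU
  let σ : Fin n → Fin n := fun i =>
    if h : r < ht i then ⟨ht i - 1, by have := htle i; omega⟩ else ⟨r, hr⟩
  have hσ : ∀ i, r ≤ (σ i : ℕ) := by
    intro i
    simp only [σ]
    split_ifs with h
    · simp only; omega
    · simp
  refine ⟨U, U⁻¹, σ, Matrix.mul_nonsing_inv U hd, Matrix.nonsing_inv_mul U hd, hU, hU', hσ, ?_⟩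
  intro i j hi hj hjσ
  have hQ : ∃ c : K, Q (M *ᵥ u i) = c • col (σ i) := by
    by_cases h : r < ht i
    · have hσi : (σ i : ℕ) + 1 = ht i := by simp only [σ, dif_pos h]; omega
      have hex : ∃ i', ht i' = (σ i : ℕ) + 1 := ⟨i, hσi.symm⟩
      have hch : hex.choose = i := huniq _ _ (σ i) (hσ i) hex.choose_spec hσi.symm
      refine ⟨(M *ᵥ u i) (σ i), ?_⟩
      have hlt : ¬ ((σ i : ℕ) < r) := by have := hσ i; omega
      simp only [col, if_neg hlt, dif_pos hex, hch]
      rw [smul_smul, mul_inv_cancel₀ (hpiv i (σ i) (hσ i) hσi.symm), one_smul]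
    · refine ⟨0, ?_⟩
      ext a
      simp only [Q, zero_smul, Pi.zero_apply]
      split_ifs with ha
      · exact (hu i).2.2 a ha (by omega)
      · rfl
  obtain ⟨c, hc⟩ := hQ
  have h1 : (U⁻¹ * M * U) j i = (U⁻¹ *ᵥ (M *ᵥ u i)) j := by
    rw [Matrix.mulVec_mulVec, Matrix.mul_apply]
    simp [Matrix.mulVec, dotProduct, U, col, hi]
  have h2 : (U⁻¹ *ᵥ (M *ᵥ u i)) j = (U⁻¹ *ᵥ Q (M *ᵥ u i)) j := by
    simp only [Matrix.mulVec, dotProduct, Q]
    refine Finset.sum_congr rfl fun a _ => ?_
    split_ifs with ha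
    · rfl
    · rw [hU' (show id a < id j from (show (a : ℕ) < j by omega))]; simp
  have h3 : (U⁻¹ *ᵥ col (σ i)) j = (U⁻¹ * U) j (σ i) := by
    simp [Matrix.mulVec, dotProduct, Matrix.mul_apply, U]
  rw [h1, h2, hc, Matrix.mulVec_smul, Pi.smul_apply, h3, Matrix.nonsing_inv_mul U hd,
    Matrix.one_apply_ne hjσ, smul_zero]

theorem card_corner (n r : ℕ) (hr : r ≤ n) :
    (Finset.univ.filter (fun t : Fin n × Fin n =>
      t.1 = t.2 ∨ ((t.1 : ℕ) < r ∧ r ≤ (t.2 : ℕ)))).card = n + r * (n - r) := by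
  rw [Finset.filter_or, Finset.card_union_of_disjoint]
  · congr 1
    · have : Finset.univ.filter (fun t : Fin n × Fin n => t.1 = t.2) =
          Finset.univ.image (fun a : Fin n => (a, a)) := by
        ext ⟨a, b⟩; simp [eq_comm]
      rw [this, Finset.card_image_of_injective _ (fun a b hab => (Prod.mk.inj hab).1)]
      simp
    · have : Finset.univ.filter (fun t : Fin n × Fin n => (t.1 : ℕ) < r ∧ r ≤ (t.2 : ℕ)) =
          (Finset.univ.filter (fun a : Fin n => (a : ℕ) < r)) ×ˢ
            (Finset.univ.filter (fun a : Fin n => r ≤ (a : ℕ))) := by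
        ext ⟨a, b⟩; simp
      rw [this, Finset.card_product]
      have h1 : (Finset.univ.filter (fun a : Fin n => (a : ℕ) < r)).card = r := by
        rw [Fin.card_filter_val_lt]; omega
      have h2 := Finset.card_filter_add_card_filter_not (s := Finset.univ)
        (fun a : Fin n => (a : ℕ) < r)
      simp only [not_lt, Finset.card_univ, Fintype.card_fin] at h2
      rw [h1] at h2 ⊢
      congr 1
      omega
  · rw [Finset.disjoint_filter]
    rintro ⟨a, b⟩ _ h1 ⟨h2, h3⟩
    simp only at h1 h2 h3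
    subst h1
    omega

theorem lower_bound {n : ℕ} (r : ℕ) (hr : r < n) (q : LieSubalgebra K (sl (Fin n) K))
    {g g' : Matrix (Fin n) (Fin n) K} (hg : g * g' = 1)
    (hq : tri g g' hg (fun i => ((i : ℕ) : ℤ)) ≤ q) (ξ : Module.Dual K q) (hξ : stab ξ = ⊥) :
    2 * (r * (n - r) + (n - r)) ≤ finrank K q + 2 := by
  classical
  have hg' : g' * g = 1 := mul_eq_one_comm.1 hg
  obtain ⟨ξ₁, hξ₁⟩ := LinearMap.exists_extend (p := q.toSubmodule) ξ
  have hinj := toFrame_injective (K := K) hg
  obtain ⟨s, hs⟩ := (toFrame g g').exists_leftInverse_of_injective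
    (LinearMap.ker_eq_bot.2 hinj)
  let η : Module.Dual K (Matrix (Fin n) (Fin n) K) := ξ₁ ∘ₗ s
  have hη : ∀ x : q, η (toFrame g g' x.1) = ξ x := by
    intro x
    have h1 : s (toFrame g g' x.1) = x.1 := LinearMap.congr_fun hs x.1
    have h2 : ξ₁ x.1 = ξ x := LinearMap.congr_fun hξ₁ x
    simp only [η, LinearMap.comp_apply, h1, h2]
  let M : Matrix (Fin n) (Fin n) K := Matrix.of fun b a => η (Matrix.single a b 1)
  have hM : ∀ y : Matrix (Fin n) (Fin n) K, η y = (y * M).trace := by
    intro y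
    conv_lhs => rw [Matrix.matrix_eq_sum_single y]
    simp only [map_sum, Matrix.trace, Matrix.diag, Matrix.mul_apply, M, Matrix.of_apply]
    refine Finset.sum_congr rfl fun a _ => Finset.sum_congr rfl fun b _ => ?_
    rw [← smul_eq_mul, ← map_smul, Matrix.smul_single, smul_eq_mul, mul_one]
  obtain ⟨U, U', σ, hU1, hU2, hU, hU', hσ, hB⟩ := bruhat r hr M
  have hh : (g * U) * (U' * g') = 1 := by
    calc (g * U) * (U' * g') = g * (U * U') * g' := by simp only [Matrix.mul_assoc]
      _ = 1 := by rw [hU1, Matrix.mul_one, hg]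
  have hh' : (U' * g') * (g * U) = 1 := mul_eq_one_comm.1 hh
  have hfr : ∀ x : sl (Fin n) K, toFrame g g' x = U * toFrame (g * U) (U' * g') x * U' := by
    intro x
    simp only [toFrame_apply]
    calc g' * x.1 * g = (U * U') * (g' * x.1 * g) * (U * U') := by rw [hU1]; simp
      _ = _ := by simp only [Matrix.mul_assoc]
  let T := Finset.univ.filter (fun t : Fin n × Fin n =>
      t.1 = t.2 ∨ ((t.1 : ℕ) < r ∧ r ≤ (t.2 : ℕ)))
  let f : Matrix (Fin n) (Fin n) K →ₗ[K] (Fin r → K) :=
    { toFun := fun z i => z ⟨i, by omega⟩ ⟨i, by omega⟩ - z (σ ⟨i, by omega⟩) (σ ⟨i, by omega⟩)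
      map_add' := by intro x y; ext i; simp; ring
      map_smul' := by intro c x; ext i; simp; ring }
  let S : Submodule K (Matrix (Fin n) (Fin n) K) := supp K T ⊓ LinearMap.ker f
  have hS : n + r * (n - r) ≤ finrank K S + r := by
    have h1 := finrank_le_inf_ker_add (supp K T) f
    rw [finrank_supp, card_corner n r hr.le] at h1
    simpa using h1
  let Z : Submodule K (sl (Fin n) K) := S.comap (toFrame (g * U) (U' * g'))
  have hZ : finrank K S ≤ finrank K Z + 1 := finrank_le_comap_toFrame hh hh' S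
  have hZq : Z ≤ q.toSubmodule := by
    intro x hx
    apply hq
    rw [mem_tri, hfr]
    have hU₁ : U.BlockTriangular (fun i => ((i : ℕ) : ℤ)) := by
      intro a b h; exact hU (show (b : ℕ) < a by simpa using h)
    have hU₂ : U'.BlockTriangular (fun i => ((i : ℕ) : ℤ)) := by
      intro a b h; exact hU' (show (b : ℕ) < a by simpa using h)
    refine (hU₁.mul ?_).mul hU₂
    intro a b h
    refine hx.1 a b ?_
    simp only [T, Finset.mem_filter, Finset.mem_univ, true_and, not_or]
    have : (b : ℕ) < a := by simpa using h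
    exact ⟨fun h => by rw [h] at this; omega, by omega⟩
  have hiso : ∀ z ∈ S, ∀ w ∈ S, ((z * w - w * z) * (U' * M * U)).trace = 0 := by
    intro z hz w hw
    have hoff : ∀ y ∈ S, ∀ a b : Fin n, a ≠ b → ¬ ((a : ℕ) < r ∧ r ≤ (b : ℕ)) → y a b = 0 := by
      intro y hy a b h1 h2
      refine hy.1 a b ?_
      simp only [T, Finset.mem_filter, Finset.mem_univ, true_and, not_or]
      exact ⟨h1, h2⟩
    have hdiag : ∀ y ∈ S, ∀ a : Fin n, (a : ℕ) < r → y a a = y (σ a) (σ a) := by
      intro y hy a ha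
      have := congr_fun (LinearMap.mem_ker.1 hy.2) ⟨a, ha⟩
      exact sub_eq_zero.1 this
    have hprod : ∀ y ∈ S, ∀ y' ∈ S, ∀ a b : Fin n,
        (y * y') a b = if a = b then y a a * y' a a else y a a * y' a b + y a b * y' b b := by
      intro y hy y' hy' a b
      rw [Matrix.mul_apply]
      split_ifs with hab
      · subst hab
        refine Finset.sum_eq_single a ?_ (by simp)
        intro c _ hc
        by_cases h : (a : ℕ) < r ∧ r ≤ (c : ℕ)
        · rw [hoff y' hy' c a hc (by omega), mul_zero]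
        · rw [hoff y hy a c (Ne.symm hc) h, zero_mul]
      · rw [Finset.sum_eq_add a b hab _ (by simp) (by simp)]
        intro c _ hc
        by_cases h : (a : ℕ) < r ∧ r ≤ (c : ℕ)
        · rw [hoff y' hy' c b hc.2 (by omega), mul_zero]
        · rw [hoff y hy a c (Ne.symm hc.1) h, zero_mul]
    simp only [Matrix.trace, Matrix.diag, Matrix.mul_apply (M := z * w - w * z)]
    refine Finset.sum_eq_zero fun a _ => Finset.sum_eq_zero fun b _ => ?_
    rw [Matrix.sub_apply, hprod z hz w hw, hprod w hw z hz]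
    split_ifs with hab
    · rw [mul_comm (z a a), sub_self, zero_mul]
    · by_cases h : (a : ℕ) < r ∧ r ≤ (b : ℕ)
      · by_cases hb : b = σ a
        · rw [hdiag z hz a h.1, hdiag w hw a h.1, ← hb]; ring
        · rw [hB a b h.1 h.2 hb, mul_zero]
      · rw [hoff z hz a b hab h, hoff w hw a b hab h]; ring
  have hfin := two_mul_finrank_le_of_isotropic ξ hξ (Z.comap q.toSubmodule.subtype) (by
    intro x hx y hy
    rw [← hη, hM, LieSubalgebra.coe_bracket, hfr, toFrame_lie hh]
    have := hiso _ hx _ hy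
    rw [← this]
    simp only [Matrix.mul_assoc]
    rw [Matrix.trace_mul_comm U]
    simp only [Matrix.mul_assoc]
    rfl)
  have h3 : finrank K (Z.comap q.toSubmodule.subtype) = finrank K Z :=
    (Submodule.comapSubtypeEquivOfLe hZq).finrank_eq
  have h4 : finrank K (Z.comap q.toSubmodule.subtype) =
    finrank K (Submodule.comap (M := q) q.toSubmodule.subtype Z) := rfl
  omega

end Pool.Agent.Lib.MP_8024d7_al
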