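import Pool.Agent.Lib.MP_8024d7_al.MinDim

namespace Pool.Agent.Lib.MP_8024d7_al

set_option linter.unusedSectionVars false

open Matrix Module LieAlgebra.SpecialLinear

variable {K : Type*} [Field K]

def Tm (K : Type*) [Field K] (r m : ℕ) : Matrix (Fin m) (Fin r) K :=
  Matrix.of fun s t => if (s : ℕ) = t + (m - r) then 1 else 0

def wv (K : Type*) [Field K] (m : ℕ) : Fin m → K := fun s => if (s : ℕ) % 2 = 0 then 1 else 0

def ph (K : Type*) [Field K] (m : ℕ) : Fin m → K := fun s => if (s : ℕ) % 2 = 1 then 1 else 0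

def Em (K : Type*) [Field K] (r m : ℕ) : Matrix (Fin r ⊕ Fin m) (Fin r ⊕ Fin m) K :=
  Matrix.fromBlocks 0 0 (Tm K r m) (Matrix.vecMulVec (wv K m) (ph K m))

def blk (r m : ℕ) : Fin r ⊕ Fin m → ℤ :=
  Sum.elim (fun t => -1 - ((((t : ℕ) + (m - r) + 1) / 2 : ℕ) : ℤ))
    (fun s => (((s : ℕ) / 2 : ℕ) : ℤ))

def ord (r m : ℕ) : Fin r ⊕ Fin m → ℤ :=
  Sum.elim (fun t => -1 - ((t : ℕ) : ℤ)) (fun s => ((s : ℕ) : ℤ))

theorem ord_injective (r m : ℕ) : Function.Injective (ord r m) := by
  rintro (a | a) (b | b) h <;> simp only [ord, Sum.elim_inl, Sum.elim_inr] at h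
  · congr 1; ext; omega
  · omega
  · omega
  · congr 1; ext; omega

theorem blk_mono (r m : ℕ) (a b : Fin r ⊕ Fin m) (h : ord r m a ≤ ord r m b) :
    blk r m a ≤ blk r m b := by
  rcases a with a | a <;> rcases b with b | b <;>
    simp only [ord, blk, Sum.elim_inl, Sum.elim_inr] at h ⊢ <;> omega

theorem ph_dot_wv (m : ℕ) : ph K m ⬝ᵥ wv K m = 0 := by
  refine Finset.sum_eq_zero fun s _ => ?_
  simp only [ph, wv]
  split_ifs <;> first | omega | simp

theorem seaweed {m : ℕ} (hm : 2 ≤ m) (D : Matrix (Fin m) (Fin m) K)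
    (h1 : ∀ s t : Fin m, (t : ℕ) / 2 < s / 2 → D s t = 0)
    (h2 : ∀ s t : Fin m, ((s : ℕ) + 1) / 2 < (t + 1) / 2 → D s t = 0)
    (hc : D * Matrix.vecMulVec (wv K m) (ph K m) = Matrix.vecMulVec (wv K m) (ph K m) * D) :
    ∃ c : K, D = c • 1 := by
  rw [Matrix.mul_vecMulVec, Matrix.vecMulVec_mul] at hc
  have hc' : ∀ s t, (D *ᵥ wv K m) s * ph K m t = wv K m s * (ph K m ᵥ* D) t := by
    intro s t
    have := congr_fun (congr_fun hc s) t
    simpa [Matrix.vecMulVec_apply] using this
  let i0 : Fin m := ⟨0, by omega⟩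
  let i1 : Fin m := ⟨1, by omega⟩
  have hrow : ∀ s : Fin m, (s : ℕ) % 2 = 1 → (D *ᵥ wv K m) s = 0 := by
    intro s hs
    have := hc' s i1
    simpa [ph, wv, i1, hs] using this
  have hcol : ∀ t : Fin m, (t : ℕ) % 2 = 0 → (ph K m ᵥ* D) t = 0 := by
    intro t ht
    have := hc' i0 t
    simpa [ph, wv, i0, ht] using this.symm
  have hoff : ∀ N : ℕ, ∀ s t : Fin m, s ≠ t → (s : ℕ) + t = N → D s t = 0 := by
    intro N
    induction N using Nat.strong_induction_on with
    | _ N ih =>
      intro s t hst hN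
      have hst' : (s : ℕ) ≠ t := fun h => hst (Fin.ext h)
      by_cases ha : (t : ℕ) / 2 < s / 2
      · exact h1 s t ha
      by_cases hb : ((s : ℕ) + 1) / 2 < (t + 1) / 2
      · exact h2 s t hb
      have hs : (s : ℕ) % 2 = 1 := by omega
      have ht : (t : ℕ) % 2 = 0 := by omega
      rcases lt_or_gt_of_ne hst' with h | h
      · have := hrow s hs
        rw [Matrix.mulVec, dotProduct, Finset.sum_eq_single t _ (by simp)] at this
        · simpa [wv, ht] using this
        · intro t' _ ht'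
          have ht'' : (t' : ℕ) ≠ t := fun h => ht' (Fin.ext h)
          by_cases hp : (t' : ℕ) % 2 = 0
          · rcases lt_or_gt_of_ne ht'' with h' | h'
            · rw [ih (s + t') (by omega) s t' (fun h => by rw [h] at hs; omega) rfl, zero_mul]
            · rw [h2 s t' (by omega), zero_mul]
          · simp [wv, hp]
      · have := hcol t ht
        rw [Matrix.vecMul, dotProduct, Finset.sum_eq_single s _ (by simp)] at this
        · simpa [ph, hs] using this
        · intro s' _ hs'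
          have hs'' : (s' : ℕ) ≠ s := fun h => hs' (Fin.ext h)
          by_cases hp : (s' : ℕ) % 2 = 1
          · rcases lt_or_gt_of_ne hs'' with h' | h'
            · rw [ih (s' + t) (by omega) s' t (fun h => by rw [h] at hp; omega) rfl, mul_zero]
            · rw [h1 s' t (by omega), mul_zero]
          · simp [ph, hp]
  have hoff' : ∀ s t : Fin m, s ≠ t → D s t = 0 := fun s t h => hoff _ s t h rfl
  have hr : ∀ s, (D *ᵥ wv K m) s = D s s * wv K m s := by
    intro s
    rw [Matrix.mulVec, dotProduct, Finset.sum_eq_single s _ (by simp)]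
    intro t _ ht
    rw [hoff' s t (Ne.symm ht), zero_mul]
  have hl : ∀ t, (ph K m ᵥ* D) t = ph K m t * D t t := by
    intro t
    rw [Matrix.vecMul, dotProduct, Finset.sum_eq_single t _ (by simp)]
    intro s _ hs
    rw [hoff' s t hs, mul_zero]
  have hd : ∀ s t : Fin m, (s : ℕ) % 2 = 0 → (t : ℕ) % 2 = 1 → D s s = D t t := by
    intro s t hs ht
    have := hc' s t
    rw [hr, hl] at this
    simpa [wv, ph, hs, ht] using this
  refine ⟨D i0 i0, ?_⟩
  ext s t
  by_cases hst : s = t
  · subst hst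
    simp only [Matrix.smul_apply, Matrix.one_apply_eq, smul_eq_mul, mul_one]
    by_cases hs : (s : ℕ) % 2 = 0
    · rw [hd s i1 hs (by simp [i1]), hd i0 i1 (by simp [i0]) (by simp [i1])]
    · rw [hd i0 s (by simp [i0]) (by omega)]
  · simp [hoff' s t hst, Matrix.one_apply_ne hst]

theorem mul_Tm {r m : ℕ} {α : Type*} (B : Matrix α (Fin m) K) (a : α) (t : Fin r) (s : Fin m)
    (h : (s : ℕ) = t + (m - r)) : (B * Tm K r m) a t = B a s := by
  rw [Matrix.mul_apply, Finset.sum_eq_single s _ (by simp)]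
  · simp [Tm, h]
  · intro s' _ hs'
    have : (s' : ℕ) ≠ t + (m - r) := fun h' => hs' (Fin.ext (by omega))
    simp [Tm, this]

theorem Tm_mul {r m : ℕ} {α : Type*} (A : Matrix (Fin r) α K) (a : α) (t : Fin r) (s : Fin m)
    (h : (s : ℕ) = t + (m - r)) : (Tm K r m * A) s a = A t a := by
  rw [Matrix.mul_apply, Finset.sum_eq_single t _ (by simp)]
  · simp [Tm, h]
  · intro t' _ ht'
    have : (s : ℕ) ≠ t' + (m - r) := fun h' => ht' (Fin.ext (by omega))
    simp [Tm, this]

theorem Tm_mul_of_lt {r m : ℕ} {α : Type*} (A : Matrix (Fin r) α K) (a : α) (s : Fin m)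
    (h : (s : ℕ) < m - r) : (Tm K r m * A) s a = 0 := by
  rw [Matrix.mul_apply]
  refine Finset.sum_eq_zero fun t _ => ?_
  have : (s : ℕ) ≠ t + (m - r) := by omega
  simp [Tm, this]

theorem scalar_of_commute {r m : ℕ} (hm : 2 ≤ m) (hrm : m = r ∨ m = r + 1)
    (y : Matrix (Fin r ⊕ Fin m) (Fin r ⊕ Fin m) K) (hy : y.BlockTriangular (blk r m))
    (hc : y * Em K r m = Em K r m * y) : ∃ c : K, y = c • 1 := by
  obtain ⟨A, B, C, D, rfl⟩ : ∃ A B C D, y = Matrix.fromBlocks A B C D :=
    ⟨_, _, _, _, (Matrix.fromBlocks_toBlocks y).symm⟩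
  have hC : C = 0 := by
    ext s t
    have := @hy (Sum.inr s) (Sum.inl t) (by simp only [blk, Sum.elim_inl, Sum.elim_inr]; omega)
    simpa using this
  subst hC
  simp only [Em, Matrix.fromBlocks_multiply, Matrix.mul_zero, Matrix.zero_mul, add_zero, zero_add,
    Matrix.fromBlocks_inj] at hc
  obtain ⟨h11, h12, h21, h22⟩ := hc
  have hB1 : ∀ t (s : Fin m), m - r ≤ (s : ℕ) → B t s = 0 := by
    intro t s hs
    rw [← mul_Tm (r := r) B t ⟨s - (m - r), by omega⟩ s (by simp; omega), h11]
    rfl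
  have hB : B = 0 := by
    ext t s
    by_cases hs : m - r ≤ (s : ℕ)
    · exact hB1 t s hs
    · have := congr_fun (congr_fun h12 t) ⟨1, by omega⟩
      rw [Matrix.mul_vecMulVec, Matrix.vecMulVec_apply, Matrix.mulVec, dotProduct,
        Finset.sum_eq_single s _ (by simp)] at this
      · have hs0 : (s : ℕ) = 0 := by omega
        simpa [wv, ph, hs0] using this
      · intro s' _ hs'
        have : (s' : ℕ) ≠ s := fun h => hs' (Fin.ext h)
        rw [hB1 t s' (by omega), zero_mul]
  subst hB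
  simp only [Matrix.mul_zero, zero_add] at h22
  obtain ⟨c, hD⟩ := seaweed hm D (by
      intro s t h
      have := @hy (Sum.inr s) (Sum.inr t) (by simp only [blk, Sum.elim_inr]; omega)
      simpa using this)
    (by
      intro s t h
      rw [← mul_Tm (r := r) D s ⟨t - (m - r), by omega⟩ t (by simp; omega), h21]
      by_cases hs : (s : ℕ) < m - r
      · exact Tm_mul_of_lt A _ s hs
      · rw [Tm_mul A _ ⟨s - (m - r), by omega⟩ s (by simp; omega)]
        have := @hy (Sum.inl ⟨s - (m - r), by omega⟩) (Sum.inl ⟨t - (m - r), by omega⟩)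
          (by simp only [blk, Sum.elim_inl]; omega)
        simpa using this) h22
  have hA : A = c • 1 := by
    ext t t'
    rw [← Tm_mul A t' t ⟨t + (m - r), by omega⟩ rfl, ← h21,
      mul_Tm D _ t' ⟨t' + (m - r), by omega⟩ rfl, hD]
    by_cases h : t = t'
    · subst h; simp
    · have : (⟨t + (m - r), by omega⟩ : Fin m) ≠ ⟨t' + (m - r), by omega⟩ := by
        intro h'
        apply h
        ext
        have := Fin.mk.inj h'
        omega
      simp [Matrix.one_apply_ne h, Matrix.one_apply_ne this]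
  refine ⟨c, ?_⟩
  rw [hA, hD, ← Matrix.fromBlocks_one, Matrix.fromBlocks_smul]
  simp

/-- commutant of a matrix -/
def comm {ι : Type*} [Fintype ι] (E : Matrix ι ι K) : Submodule K (Matrix ι ι K) where
  carrier := {y | y * E = E * y}
  add_mem' := by
    intro a b ha hb
    simp only [Set.mem_ofPred_eq] at ha hb ⊢
    rw [Matrix.add_mul, Matrix.mul_add, ha, hb]
  zero_mem' := by simp
  smul_mem' := by
    intro c a ha
    simp only [Set.mem_ofPred_eq] at ha ⊢
    rw [Matrix.smul_mul, Matrix.mul_smul, ha]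

theorem finrank_comm {r m : ℕ} (hm : 2 ≤ m) :
    (r + m) * (r + m) ≤ finrank K (comm (Em K r m)) + (2 * (r * m) + 2 * (m - 1)) := by
  let i0 : Fin m := ⟨0, by omega⟩
  let sc : Fin (m - 1) → Fin m := fun s => ⟨s + 1, by omega⟩
  let Φ : Matrix (Fin r ⊕ Fin m) (Fin r ⊕ Fin m) K →ₗ[K]
      (Matrix (Fin r) (Fin m) K × Matrix (Fin m) (Fin r) K) ×
        ((Fin (m - 1) → K) × (Fin (m - 1) → K)) :=
    { toFun := fun y => ((y.toBlocks₁₂, (y * Em K r m - Em K r m * y).toBlocks₂₁),
        (fun s => (y.toBlocks₂₂ *ᵥ wv K m) (sc s) - (y.toBlocks₂₂ *ᵥ wv K m) i0 * wv K m (sc s),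
         fun s => (ph K m ᵥ* y.toBlocks₂₂) (sc s) - (y.toBlocks₂₂ *ᵥ wv K m) i0 * ph K m (sc s)))
      map_add' := by
        intro x y
        have h22 : (x + y).toBlocks₂₂ = x.toBlocks₂₂ + y.toBlocks₂₂ := rfl
        simp only [Prod.mk_add_mk, Prod.mk.injEq, h22, Matrix.add_mulVec, Matrix.vecMul_add]
        refine ⟨⟨rfl, ?_⟩, ?_, ?_⟩
        · ext a b
          simp [Matrix.toBlocks₂₁, Matrix.add_mul, Matrix.mul_add]; ring
        · ext s; simp; ring
        · ext s; simp; ring
      map_smul' := by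
        intro c x
        have h22 : (c • x).toBlocks₂₂ = c • x.toBlocks₂₂ := rfl
        simp only [Prod.smul_mk, Prod.mk.injEq, h22, Matrix.smul_mulVec, Matrix.vecMul_smul,
          RingHom.id_apply]
        refine ⟨⟨rfl, ?_⟩, ?_, ?_⟩
        · ext a b
          simp [Matrix.toBlocks₂₁]; ring
        · ext s; simp; ring
        · ext s; simp; ring }
  have h1 := finrank_le_inf_ker_add (⊤ : Submodule K _) Φ
  have h2 : (⊤ ⊓ LinearMap.ker Φ : Submodule K _) ≤ comm (Em K r m) := by
    rintro y ⟨-, hy⟩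
    obtain ⟨A, B, C, D, rfl⟩ : ∃ A B C D, y = Matrix.fromBlocks A B C D :=
      ⟨_, _, _, _, (Matrix.fromBlocks_toBlocks y).symm⟩
    have hy' : Φ (Matrix.fromBlocks A B C D) = 0 := hy
    simp only [Φ, LinearMap.coe_mk, AddHom.coe_mk, Prod.mk_eq_zero, Matrix.toBlocks_fromBlocks₁₂,
      Matrix.toBlocks_fromBlocks₂₂] at hy'
    obtain ⟨⟨hB, h21⟩, hw, hp⟩ := hy'
    subst hB
    set c := (D *ᵥ wv K m) i0 with hc
    have hsc : ∀ s : Fin m, s ≠ i0 → ∃ s', s = sc s' := by
      intro s hs
      have : (s : ℕ) ≠ 0 := fun h => hs (Fin.ext h)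
      exact ⟨⟨s - 1, by omega⟩, Fin.ext (by simp [sc]; omega)⟩
    have hw' : D *ᵥ wv K m = c • wv K m := by
      ext s
      by_cases hs : s = i0
      · subst hs; simp [wv, i0, hc]
      · obtain ⟨s', rfl⟩ := hsc s hs
        exact sub_eq_zero.1 (congr_fun hw s')
    have hp1 : ∀ s, s ≠ i0 → (ph K m ᵥ* D) s = c * ph K m s := by
      intro s hs
      obtain ⟨s', rfl⟩ := hsc s hs
      exact sub_eq_zero.1 (congr_fun hp s')
    have hp' : ph K m ᵥ* D = c • ph K m := by
      ext s
      by_cases hs : s = i0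
      · subst hs
        have h3 : (ph K m ᵥ* D - c • ph K m) ⬝ᵥ wv K m = 0 := by
          rw [sub_dotProduct, ← Matrix.dotProduct_mulVec, hw', dotProduct_smul, smul_dotProduct,
            sub_self]
        rw [dotProduct, Finset.sum_eq_single i0 _ (by simp)] at h3
        · have h4 : wv K m i0 = 1 := by simp [wv, i0]
          rw [h4, mul_one] at h3
          exact sub_eq_zero.1 h3
        · intro s _ hs
          rw [Pi.sub_apply, hp1 s hs]; simp
      · exact hp1 s hs
    change _ * _ = _ * _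
    simp only [Em, Matrix.fromBlocks_multiply, Matrix.mul_zero, Matrix.zero_mul, add_zero,
      zero_add] at h21 ⊢
    rw [Matrix.fromBlocks_inj]
    refine ⟨rfl, rfl, ?_, ?_⟩
    · rw [← sub_eq_zero, ← h21]
      ext a b
      simp [Matrix.toBlocks₂₁]
    · rw [Matrix.mul_vecMulVec, Matrix.vecMulVec_mul, hw', hp', Matrix.smul_vecMulVec,
        Matrix.vecMulVec_smul]
  have h3 := Submodule.finrank_mono h2
  simp only [finrank_top, Module.finrank_matrix, Fintype.card_sum, Fintype.card_fin,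
    Module.finrank_self, mul_one, Module.finrank_prod, Module.finrank_fintype_fun_eq_card] at h1
  rw [Nat.mul_comm m r] at h1
  omega

theorem card_blk {r m : ℕ} (hm : 2 ≤ m) (hrm : m = r ∨ m = r + 1) :
    (r + m) * (r + m) + (r + m) + 2 * (m - 1) ≤
      2 * (Finset.univ.filter (fun t : (Fin r ⊕ Fin m) × (Fin r ⊕ Fin m) =>
        blk r m t.1 ≤ blk r m t.2)).card := by
  have h1 := card_le_pairs (ord r m) (ord_injective r m)
  simp only [Fintype.card_sum, Fintype.card_fin] at h1
  let F : Fin (m - 1) → (Fin r ⊕ Fin m) × (Fin r ⊕ Fin m) := fun s =>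
    if h : (s : ℕ) % 2 = 0 then (Sum.inr ⟨s + 1, by omega⟩, Sum.inr ⟨s, by omega⟩)
    else (Sum.inl ⟨s - (m - r), by omega⟩, Sum.inl ⟨s + 1 - (m - r), by omega⟩)
  have hF : Function.Injective F := by
    intro s s' h
    simp only [F] at h
    split_ifs at h with h1 h2 h2 <;> simp only [Prod.mk.injEq, Sum.inr.injEq, Sum.inl.injEq,
      Fin.mk.injEq, reduceCtorEq, false_and] at h
    · ext; omega
    · ext; omega
  have hsub : (Finset.univ.filter (fun t : (Fin r ⊕ Fin m) × (Fin r ⊕ Fin m) =>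
      ord r m t.1 ≤ ord r m t.2)) ∪ Finset.univ.image F ⊆
      Finset.univ.filter (fun t : (Fin r ⊕ Fin m) × (Fin r ⊕ Fin m) =>
        blk r m t.1 ≤ blk r m t.2) := by
    intro t ht
    simp only [Finset.mem_union, Finset.mem_filter, Finset.mem_univ, true_and,
      Finset.mem_image] at ht ⊢
    rcases ht with ht | ⟨s, rfl⟩
    · exact blk_mono r m _ _ ht
    · simp only [F]
      split_ifs with h <;> simp only [blk, Sum.elim_inl, Sum.elim_inr] <;> omega
  have hdis : Disjoint (Finset.univ.filter (fun t : (Fin r ⊕ Fin m) × (Fin r ⊕ Fin m) =>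
      ord r m t.1 ≤ ord r m t.2)) (Finset.univ.image F) := by
    rw [Finset.disjoint_left]
    intro t ht ht'
    simp only [Finset.mem_filter, Finset.mem_univ, true_and, Finset.mem_image] at ht ht'
    obtain ⟨s, rfl⟩ := ht'
    simp only [F] at ht
    split_ifs at ht with h <;> simp only [ord, Sum.elim_inl, Sum.elim_inr] at ht <;> omega
  have h2 := Finset.card_le_card hsub
  rw [Finset.card_union_of_disjoint hdis, Finset.card_image_of_injective _ hF] at h2
  simp only [Finset.card_univ, Fintype.card_fin] at h2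
  omega

end Pool.Agent.Lib.MP_8024d7_al
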